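import Mathlib
import Pool.Agent.H30.CM

/-! The posterior upper probability is completely alternating, for selection priors of any
random set and in the contamination model. -/

open Finset Filter Topology MeasureTheory Pool.Agent.H30.CM

namespace Pool.Agent.Results.MP_bae362_pr.Complete

variable {E : Type} [MeasurableSpace E]

/-- Posterior probability of `A` for the prior `P` and likelihood `L`. -/
noncomputable def post (L : E → ℝ) (P : Measure E) (A : Set E) : ℝ :=
  (∫ x in A, L x ∂P) / ∫ x, L x ∂P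

/-- Posterior upper probability: supremum over the priors whose posterior is defined. -/
noncomputable def upper (L : E → ℝ) (Pr : Set (Measure E)) (A : Set E) : ℝ :=
  sSup {r | ∃ P ∈ Pr, Integrable L P ∧ 0 < ∫ x, L x ∂P ∧ r = post L P A}

/-- `n`-alternation on measurable sets. -/
def Alt (n : ℕ) (v : Set E → ℝ) : Prop :=
  ∀ A : Fin n → Set E, (∀ i, MeasurableSet (A i)) →
    v (⋂ i, A i) ≤ ∑ I ∈ (univ : Finset (Fin n)).powerset.erase ∅,
      (-1) ^ (I.card + 1) * v (⋃ i ∈ I, A i)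

/-- Laws of the measurable selections of the random set `X`. -/
def selLaws {Ω : Type} [MeasurableSpace Ω] (μ : Measure Ω) (X : Ω → Set E) : Set (Measure E) :=
  {P | ∃ ξ : Ω → E, Measurable ξ ∧ (∀ᵐ ω ∂μ, ξ ω ∈ X ω) ∧ P = μ.map ξ}

/-- The contamination class. -/
def contam (ε : ℝ) (P : Measure E) : Set (Measure E) :=
  {R | ∃ Q : Measure E, IsProbabilityMeasure Q ∧
    R = ENNReal.ofReal (1 - ε) • P + ENNReal.ofReal ε • Q}

lemma post_nonneg {L : E → ℝ} (h0 : ∀ x, 0 ≤ L x) (P : Measure E) (A : Set E) :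
    0 ≤ post L P A :=
  div_nonneg (integral_nonneg h0) (integral_nonneg h0)

lemma post_le_one {L : E → ℝ} (h0 : ∀ x, 0 ≤ L x) {P : Measure E} (hi : Integrable L P)
    (A : Set E) : post L P A ≤ 1 :=
  div_le_one_of_le₀ (setIntegral_le_integral hi (Eventually.of_forall h0)) (integral_nonneg h0)

lemma bdd {L : E → ℝ} (h0 : ∀ x, 0 ≤ L x) (Pr : Set (Measure E)) (A : Set E) :
    BddAbove {r | ∃ P ∈ Pr, Integrable L P ∧ 0 < ∫ x, L x ∂P ∧ r = post L P A} := by
  refine ⟨1, ?_⟩
  rintro r ⟨P, -, hi, -, rfl⟩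
  exact post_le_one h0 hi A

lemma le_upper {L : E → ℝ} (h0 : ∀ x, 0 ≤ L x) {Pr : Set (Measure E)} {P : Measure E}
    (hP : P ∈ Pr) (hi : Integrable L P) (A : Set E) : post L P A ≤ upper L Pr A := by
  rcases (integral_nonneg (μ := P) (f := L) h0).eq_or_lt with h | h
  · have : post L P A = 0 := by
      unfold post
      have h' : ∫ x, L x ∂P = 0 := h.symm
      rw [h', div_zero]
    rw [this]
    apply Real.sSup_nonneg
    rintro r ⟨P, -, -, -, rfl⟩
    exact post_nonneg h0 P A
  · exact le_csSup (bdd h0 Pr A) ⟨P, hP, hi, h, rfl⟩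

open Classical in
/-- The score whose maximiser is the most favourable point for `A`. -/
noncomputable def score (L : E → ℝ) (A : Set E) (x : E) : ℝ := if x ∈ A then L x else -1 - L x

lemma best {Ω κ : Type} [MeasurableSpace Ω] (ξ : κ → Ω → E) (hξ : ∀ k, Measurable (ξ k))
    (φ : E → ℝ) (hφ : Measurable φ) (T : Finset κ) (hT : T.Nonempty) :
    ∃ η : Ω → E, Measurable η ∧ (∀ ω, ∃ k, η ω = ξ k ω) ∧ ∀ ω, ∀ k ∈ T, φ (ξ k ω) ≤ φ (η ω) := by
  classical
  induction hT using Finset.Nonempty.cons_induction with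
  | singleton a => exact ⟨ξ a, hξ a, fun ω => ⟨a, rfl⟩, by simp⟩
  | cons a s h hs ih =>
    obtain ⟨η, hm, h1, h2⟩ := ih
    refine ⟨fun ω => if φ (η ω) ≤ φ (ξ a ω) then ξ a ω else η ω, ?_, ?_, ?_⟩
    · exact Measurable.ite (measurableSet_le (hφ.comp hm) (hφ.comp (hξ a))) (hξ a) hm
    · intro ω
      by_cases hc : φ (η ω) ≤ φ (ξ a ω)
      · exact ⟨a, by simp [hc]⟩
      · simpa [hc] using h1 ω
    · intro ω k hk
      rw [mem_cons] at hk
      by_cases hc : φ (η ω) ≤ φ (ξ a ω)
      · simp only [hc, if_true]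
        rcases hk with rfl | hk
        · exact le_rfl
        · exact (h2 ω k hk).trans hc
      · simp only [hc, if_false]
        rcases hk with rfl | hk
        · exact (not_le.mp hc).le
        · exact h2 ω k hk

lemma tri {L : E → ℝ} (h0 : ∀ x, 0 ≤ L x) {A B : Set E} {x y z : E}
    (hxy : score L A y ≤ score L A x) (hxz : score L A z ≤ score L A x)
    (hyx : score L B x ≤ score L B y) (hyz : score L B z ≤ score L B y)
    (hzx : score L (A ∪ B) x ≤ score L (A ∪ B) z) (hzy : score L (A ∪ B) y ≤ score L (A ∪ B) z) :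
    L z = max (L x) (L y) ∧
      (A ∪ B)ᶜ.indicator L z = min (Aᶜ.indicator L x) (Bᶜ.indicator L y) := by
  classical
  have := h0 x
  have := h0 y
  have := h0 z
  by_cases a1 : x ∈ A <;> by_cases a2 : y ∈ A <;> by_cases a3 : z ∈ A <;>
    by_cases b1 : x ∈ B <;> by_cases b2 : y ∈ B <;> by_cases b3 : z ∈ B <;>
    simp only [score, Set.mem_union, a1, a2, a3, b1, b2, b3, if_true, if_false, or_self,
      or_true, true_or, Set.indicator_apply, Set.mem_compl_iff, not_true, not_false_iff,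
      max_def, min_def] at * <;>
    refine ⟨?_, ?_⟩ <;> first | trivial | (split_ifs <;> linarith) | linarith

lemma post_map {Ω : Type} [MeasurableSpace Ω] (μ : Measure Ω) {L : E → ℝ} (hL : Measurable L)
    {ξ : Ω → E} (hξ : Measurable ξ) {A : Set E} (hA : MeasurableSet A) :
    post L (μ.map ξ) A = (∫ ω, A.indicator L (ξ ω) ∂μ) / ∫ ω, L (ξ ω) ∂μ := by
  unfold post
  rw [← integral_indicator hA, integral_map hξ.aemeasurable (hL.indicator hA).aestronglyMeasurable,
    integral_map hξ.aemeasurable hL.aestronglyMeasurable]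

lemma ratio_le {a b s t : ℝ} (ha : 0 ≤ a) (ht : 0 ≤ t) (h1 : a ≤ s) (h2 : t ≤ b) :
    a / (a + b) ≤ s / (s + t) := by
  rcases ha.eq_or_lt with h | h
  · rw [← h, zero_div]; exact div_nonneg (by linarith) (by linarith)
  · rw [div_le_div_iff₀ (by linarith) (by linarith)]
    nlinarith [mul_le_mul h1 h2 ht (by linarith : 0 ≤ s)]

lemma core {Ω κ ι : Type} [MeasurableSpace Ω] [Fintype κ] [Nonempty κ] [DecidableEq ι]
    (μ : Measure Ω) {L : E → ℝ} (hL : Measurable L) (h0 : ∀ x, 0 ≤ L x)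
    (ξ : κ → Ω → E) (hξ : ∀ k, Measurable (ξ k)) (hi : ∀ k, Integrable (fun ω => L (ξ k ω)) μ)
    (B : Finset ι → Set E) (hB : ∀ I, MeasurableSet (B I))
    (hU : ∀ a I, B (insert a I) = B I ∪ B {a}) :
    ∃ η : Finset ι → Ω → E, (∀ I, Measurable (η I)) ∧ (∀ I ω, ∃ k, η I ω = ξ k ω) ∧
      (∀ I, Integrable (fun ω => L (η I ω)) μ) ∧
      CM (fun I => 1 - post L (μ.map (η I)) (B I)) ∧
      ∀ k I, post L (μ.map (ξ k)) (B I) ≤ post L (μ.map (η I)) (B I) := by
  classical
  have hsc : ∀ I, Measurable (score L (B I)) := fun I =>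
    Measurable.ite (hB I) hL (measurable_const.sub hL)
  choose η hm h1 h2 using fun I => best ξ hξ _ (hsc I) univ univ_nonempty
  have h3 : ∀ I J ω, score L (B I) (η J ω) ≤ score L (B I) (η I ω) := fun I J ω => by
    obtain ⟨k, hk⟩ := h1 J ω
    rw [hk]; exact h2 I ω k (mem_univ _)
  have hle : ∀ I ω, L (η I ω) ≤ ∑ k, L (ξ k ω) := fun I ω => by
    obtain ⟨k, hk⟩ := h1 I ω
    rw [hk]; exact single_le_sum (f := fun k => L (ξ k ω)) (fun k _ => h0 _) (mem_univ k)
  have hS : Integrable (fun ω => ∑ k, L (ξ k ω)) μ := integrable_finset_sum _ fun k _ => hi k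
  have hiη : ∀ I, Integrable (fun ω => L (η I ω)) μ := fun I =>
    hS.mono' (hL.comp (hm I)).aestronglyMeasurable (Eventually.of_forall fun ω => by
      rw [Real.norm_of_nonneg (h0 _)]; exact hle I ω)
  have hind : ∀ (f : Ω → E), Measurable f → Integrable (fun ω => L (f ω)) μ →
      ∀ A : Set E, MeasurableSet A → Integrable (fun ω => A.indicator L (f ω)) μ :=
    fun f hf hif A hA => (hif.indicator (hf hA)).congr (Eventually.of_forall fun ω => by
      by_cases h : f ω ∈ A <;> simp [Set.indicator, h])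
  have hsplit : ∀ (f : Ω → E), Measurable f → Integrable (fun ω => L (f ω)) μ →
      ∀ A : Set E, MeasurableSet A → ∫ ω, L (f ω) ∂μ =
        ∫ ω, A.indicator L (f ω) ∂μ + ∫ ω, Aᶜ.indicator L (f ω) ∂μ := by
    intro f hf hif A hA
    rw [← integral_add (hind f hf hif A hA) (hind f hf hif _ hA.compl)]
    congr 1; funext ω
    by_cases h : f ω ∈ A <;> simp [Set.indicator, h]
  have htri : ∀ a I ω, L (η (insert a I) ω) = max (L (η I ω)) (L (η {a} ω)) ∧
      (B (insert a I))ᶜ.indicator L (η (insert a I) ω) =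
        min ((B I)ᶜ.indicator L (η I ω)) ((B {a})ᶜ.indicator L (η {a} ω)) := by
    intro a I ω
    have e := hU a I
    have := tri h0 (A := B I) (B := B {a}) (x := η I ω) (y := η {a} ω) (z := η (insert a I) ω)
      (h3 _ _ _) (h3 _ _ _) (h3 _ _ _) (h3 _ _ _) (e ▸ h3 _ _ _) (e ▸ h3 _ _ _)
    rw [e]; exact this
  have hind0 : ∀ (A : Set E) x, 0 ≤ A.indicator L x := fun A x =>
    Set.indicator_nonneg (fun x _ => h0 x) x
  refine ⟨η, hm, h1, hiη, ?_, ?_⟩
  · have ht : CM (fun I => ∫ ω, (B I)ᶜ.indicator L (η I ω) ∂μ) :=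
      CM.integral μ (fun I => hind _ (hm I) (hiη I) _ (hB I).compl) fun ω =>
        CM.of_min (fun I => hind0 _ _) fun a I => (htri a I ω).2
    have hr : CM (fun I => ∫ ω, (∑ k, L (ξ k ω) - L (η I ω)) ∂μ) :=
      CM.integral μ (fun I => hS.sub (hiη I)) fun ω =>
        CM.of_min (fun I => sub_nonneg.mpr (hle I ω)) fun a I => by
          rw [(htri a I ω).1]
          simp only [max_def, min_def]
          split_ifs <;> linarith
    have := CM.ratio (s := fun I => ∫ ω, (B I).indicator L (η I ω) ∂μ)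
      (c := ∫ ω, ∑ k, L (ξ k ω) ∂μ) (fun I => integral_nonneg fun ω => hind0 _ _) ht (by
        convert hr using 2 with I
        rw [integral_sub hS (hiη I), hsplit _ (hm I) (hiη I) _ (hB I)])
    convert this using 3 with I
    rw [post_map μ hL (hm I) (hB I), hsplit _ (hm I) (hiη I) _ (hB I)]
  · intro k I
    rw [post_map μ hL (hm I) (hB I), hsplit _ (hm I) (hiη I) _ (hB I),
      post_map μ hL (hξ k) (hB I), hsplit _ (hξ k) (hi k) _ (hB I)]
    refine ratio_le (integral_nonneg fun ω => hind0 _ _) (integral_nonneg fun ω => hind0 _ _)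
      (integral_mono (hind _ (hξ k) (hi k) _ (hB I)) (hind _ (hm I) (hiη I) _ (hB I)) fun ω => ?_)
      (integral_mono (hind _ (hm I) (hiη I) _ (hB I).compl) (hind _ (hξ k) (hi k) _ (hB I).compl)
        fun ω => ?_)
    all_goals
      have := h2 I ω k (mem_univ _)
      have := h0 (ξ k ω)
      have := h0 (η I ω)
      by_cases a1 : ξ k ω ∈ B I <;> by_cases a2 : η I ω ∈ B I <;>
        simp only [score, a1, a2, if_true, if_false, Set.indicator_apply, Set.mem_compl_iff,
          not_true, not_false_iff] at * <;> linarith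

lemma alt_of {L : E → ℝ} (Pr : Set (Measure E))
    (H : ∀ (n : ℕ) (B : Finset (Fin n) → Set E), (∀ I, MeasurableSet (B I)) →
      (∀ a I, B (insert a I) = B I ∪ B {a}) → ∀ P : Finset (Fin n) → Measure E,
      (∀ I, P I ∈ Pr ∧ Integrable L (P I)) → ∃ w : Finset (Fin n) → ℝ, CM (fun I => 1 - w I) ∧
        ∀ I, post L (P I) (B I) ≤ w I ∧ w I ≤ upper L Pr (B I))
    (n : ℕ) (hn : 1 ≤ n) : Alt n (upper L Pr) := by
  intro A hA
  by_cases hne : ∃ P ∈ Pr, Integrable L P ∧ 0 < ∫ x, L x ∂P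
  swap
  · have : ∀ S, upper L Pr S = 0 := fun S => by
      unfold upper
      convert Real.sSup_empty
      ext r
      simp only [Set.mem_ofPred_eq, Set.mem_empty_iff_false, iff_false]
      rintro ⟨P, h1, h2, h3, -⟩
      exact hne ⟨P, h1, h2, h3⟩
    simp [this]
  obtain ⟨P0, hP1, hP2, hP3⟩ := hne
  let B : Finset (Fin n) → Set E := fun I => (⋂ i, A i) ∪ ⋃ i ∈ I, A i
  have hB : ∀ I, MeasurableSet (B I) := fun I =>
    (MeasurableSet.iInter hA).union (Finset.measurableSet_biUnion I fun i _ => hA i)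
  have hU : ∀ a I, B (insert a I) = B I ∪ B {a} := fun a I => by
    simp only [B, Finset.set_biUnion_insert, Finset.set_biUnion_singleton]
    ext x; simp only [Set.mem_union]; tauto
  have hcm : CM (fun I => 1 - upper L Pr (B I)) := by
    have hap : ∀ (m : ℕ) I, ∃ P, (P ∈ Pr ∧ Integrable L P) ∧
        upper L Pr (B I) - 1 / ((m : ℝ) + 1) < post L P (B I) := by
      intro m I
      have : upper L Pr (B I) - 1 / ((m : ℝ) + 1) < upper L Pr (B I) := by
        have : (0 : ℝ) < 1 / ((m : ℝ) + 1) := by positivity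
        linarith
      have hn' : {r | ∃ P ∈ Pr, Integrable L P ∧ 0 < ∫ x, L x ∂P ∧ r = post L P (B I)}.Nonempty :=
        ⟨_, P0, hP1, hP2, hP3, rfl⟩
      obtain ⟨r, ⟨P, h1, h2, -, rfl⟩, hr⟩ := exists_lt_of_lt_csSup hn' this
      exact ⟨P, ⟨h1, h2⟩, hr⟩
    choose P hP hP' using hap
    choose w hw hw' using fun m => H n B hB hU (P m) (hP m)
    refine CM.lim hw fun I => Tendsto.const_sub _ ?_
    refine tendsto_of_tendsto_of_tendsto_of_le_of_le
      (g := fun m : ℕ => upper L Pr (B I) - 1 / ((m : ℝ) + 1)) ?_ tendsto_const_nhds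
      (fun m => (hP' m I).le.trans (hw' m I).1) (fun m => (hw' m I).2)
    simpa using (tendsto_const_nhds (x := upper L Pr (B I))).sub
      (tendsto_one_div_add_atTop_nhds_zero_nat (𝕜 := ℝ))
  have h1 := hcm (univ : Finset (Fin n)).toList ∅
  rw [D_sum _ (Finset.nodup_toList _), Finset.toList_toFinset] at h1
  have hz : ∑ K ∈ (univ : Finset (Fin n)).powerset, (-1 : ℝ) ^ K.card = 0 := by
    have : (univ : Finset (Fin n)).Nonempty := ⟨⟨0, hn⟩, mem_univ _⟩
    exact_mod_cast Finset.sum_powerset_neg_one_pow_card_of_nonempty this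
  simp only [mul_sub, mul_one, Finset.sum_sub_distrib, hz] at h1
  rw [← Finset.add_sum_erase _ _ (empty_mem_powerset _)] at h1
  have e0 : B ∅ = ⋂ i, A i := by simp [B]
  have e1 : ∑ I ∈ (univ : Finset (Fin n)).powerset.erase ∅,
      (-1 : ℝ) ^ (I.card + 1) * upper L Pr (⋃ i ∈ I, A i) =
      -∑ I ∈ (univ : Finset (Fin n)).powerset.erase ∅, (-1 : ℝ) ^ I.card * upper L Pr (B I) := by
    rw [← Finset.sum_neg_distrib]
    refine Finset.sum_congr rfl fun I hI => ?_
    obtain ⟨i, hi⟩ := Finset.nonempty_iff_ne_empty.mpr (mem_erase.mp hI).1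
    have : B I = ⋃ i ∈ I, A i := Set.union_eq_right.mpr fun x hx =>
      Set.mem_biUnion hi (Set.mem_iInter.mp hx i)
    rw [this]; ring
  rw [e1, ← e0]
  simp only [card_empty, pow_zero, one_mul] at h1
  linarith

theorem result :
    (∀ (E Ω : Type) [MeasurableSpace E] [MeasurableSpace Ω] (μ : Measure Ω)
      [IsProbabilityMeasure μ] (X : Ω → Set E) (L : E → ℝ), Measurable L → (∀ x, 0 ≤ L x) →
      ∀ n, 1 ≤ n → Alt n (upper L (selLaws μ X))) ∧
    (∀ (E : Type) [MeasurableSpace E] (P : Measure E) [IsProbabilityMeasure P] (ε : ℝ),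
      0 < ε → ε < 1 → ∀ L : E → ℝ, Measurable L → (∀ x, 0 ≤ L x) →
      ∀ n, 1 ≤ n → Alt n (upper L (contam ε P))) := by
  constructor
  · intro E Ω _ _ μ _ X L hL h0
    apply alt_of
    intro n B hB hU P hP
    choose ξ hξ hX he using fun I => (hP I).1
    have hi : ∀ k, Integrable (fun ω => L (ξ k ω)) μ := fun k =>
      (integrable_map_measure hL.aestronglyMeasurable (hξ k).aemeasurable).mp (he k ▸ (hP k).2)
    obtain ⟨η, hm, h1, hiη, hcm, hle⟩ := core μ hL h0 ξ hξ hi B hB hU
    refine ⟨_, hcm, fun I => ⟨he I ▸ hle I I, le_upper h0 ?_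
      ((integrable_map_measure hL.aestronglyMeasurable (hm I).aemeasurable).mpr (hiη I)) _⟩⟩
    refine ⟨η I, hm I, ?_, rfl⟩
    filter_upwards [ae_all_iff.mpr hX] with ω hω
    obtain ⟨k, hk⟩ := h1 I ω
    rw [hk]; exact hω k
  · intro E _ P _ ε _ _ L hL h0
    apply alt_of
    intro n B hB hU R hR
    choose Q hQ he using fun I => (hR I).1
    let κ := Finset (Fin n)
    let μ : Measure (E ⊕ (κ → E)) := ENNReal.ofReal (1 - ε) • P.map Sum.inl +
      ENNReal.ofReal ε • (Measure.pi Q).map Sum.inr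
    have hmap : ∀ f : E ⊕ (κ → E) → E, Measurable f → (∀ x, f (Sum.inl x) = x) →
        μ.map f = ENNReal.ofReal (1 - ε) • P +
          ENNReal.ofReal ε • (Measure.pi Q).map (f ∘ Sum.inr) := by
      intro f hf h
      have : f ∘ Sum.inl = id := funext h
      simp only [μ]
      rw [Measure.map_add _ _ hf, Measure.map_smul, Measure.map_smul,
        Measure.map_map hf measurable_inl, Measure.map_map hf measurable_inr, this,
        Measure.map_id]
    let ξ : κ → E ⊕ (κ → E) → E := fun k => Sum.elim id (fun y => y k)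
    have hξ : ∀ k, Measurable (ξ k) := fun k => measurable_id.sumElim (measurable_pi_apply k)
    have he' : ∀ k, μ.map (ξ k) = R k := fun k => by
      rw [hmap _ (hξ k) (fun x => rfl), he k]
      congr 2
      exact (measurePreserving_eval Q k).map_eq
    have hi : ∀ k, Integrable (fun ω => L (ξ k ω)) μ := fun k =>
      (integrable_map_measure hL.aestronglyMeasurable (hξ k).aemeasurable).mp
        ((he' k).symm ▸ (hR k).2)
    obtain ⟨η, hm, h1, hiη, hcm, hle⟩ := core μ hL h0 ξ hξ hi B hB hU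
    refine ⟨_, hcm, fun I => ⟨he' I ▸ hle I I, le_upper h0 ?_
      ((integrable_map_measure hL.aestronglyMeasurable (hm I).aemeasurable).mpr (hiη I)) _⟩⟩
    refine ⟨_, ?_, hmap _ (hm I) fun x => ?_⟩
    · exact Measure.isProbabilityMeasure_map ((hm I).comp measurable_inr).aemeasurable
    · obtain ⟨k, hk⟩ := h1 I (Sum.inl x)
      rw [hk]; rfl

end Pool.Agent.Results.MP_bae362_pr.Complete
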